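import Pool.Agent.KZ.Main

set_option autoImplicit false

/-!
# Cowling-Haagerup constant, weak Haagerup constant and property (T)

For every discrete group with property (T) there is `ε > 0` such that each Hausdorff (locally
compact) group whose Cowling-Haagerup constant, or whose weak Haagerup constant, is less than
`1 + ε` admits only homomorphisms with relatively compact image from it.  In particular, in a
group with constant one all discrete subgroups with property (T) are finite.
-/

namespace Pool.Agent.Results.MP_e3aa4b_al.KazhdanGroups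

open Pool.Agent.KZ

universe u

theorem result :
    (∀ (Γ : Type u) [Group Γ], PropertyT Γ →
      ∃ ε : ℝ, 0 < ε ∧
        ∀ (G : Type u) [Group G] [TopologicalSpace G] [IsTopologicalGroup G] [T2Space G],
          ((WeaklyAmenable G ∧ CowlingHaagerupConstant G < 1 + ε) ∨
            (WeakHaagerup G ∧ WeakHaagerupConstant G < 1 + ε)) →
          ∀ ρ : Γ →* G, IsCompact (closure (Set.range ρ))) ∧
    (∀ (G : Type u) [Group G] [TopologicalSpace G] [IsTopologicalGroup G] [T2Space G],
      ((WeaklyAmenable G ∧ CowlingHaagerupConstant G = 1) ∨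
        (WeakHaagerup G ∧ WeakHaagerupConstant G = 1)) →
      ∀ H : Subgroup G, DiscreteTopology H → PropertyT H → Finite H) := by
  refine ⟨fun Γ _ hT => image_relcompact hT, ?_⟩
  intro G _ _ _ _ hG H hd hT
  obtain ⟨ε, hε, h⟩ := image_relcompact hT
  refine finite_of_discrete H (h G ?_ H.subtype)
  rcases hG with ⟨h1, h2⟩ | ⟨h1, h2⟩
  · exact Or.inl ⟨h1, by rw [h2]; linarith⟩
  · exact Or.inr ⟨h1, by rw [h2]; linarith⟩

end Pool.Agent.Results.MP_e3aa4b_al.KazhdanGroups
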